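import Pool.Agent.Lib.H98M.M0

/-!
# H47D, file Cut: 2-cuts and uncrossed pairs in a 2-connected graph (MP_33911d, form D, chunk D3)

`Sep G x y W`: `W` meets both parts of a split of `V - x - y` without edges of `G` between the parts.
`X2 G W`: some pair outside `W` separates `W`.
`Unc G x y`: no 2-cut of `G` disjoint from `{x, y}` is separated by `{x, y}`.
-/

set_option autoImplicit false

namespace H47D

open Finset H98M

variable {V : Type*} [Fintype V] [DecidableEq V]

def Sep (G : Finset (Sym2 V)) (x y : V) (W : Finset V) : Prop :=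
  ∃ C D : Finset V, Disjoint C D ∧ C ∪ D = (univ.erase x).erase y ∧
    (∀ a ∈ C, ∀ b ∈ D, s(a, b) ∉ G) ∧ (W ∩ C).Nonempty ∧ (W ∩ D).Nonempty

def X2 (G : Finset (Sym2 V)) (W : Finset V) : Prop :=
  ∃ x y : V, x ≠ y ∧ x ∉ W ∧ y ∉ W ∧ Sep G x y W

def Unc (G : Finset (Sym2 V)) (x y : V) : Prop :=
  ∀ u v : V, u ≠ x → u ≠ y → v ≠ x → v ≠ y → Disc ((univ.erase u).erase v) G →
    ¬ Sep G x y {u, v}

variable {G : Finset (Sym2 V)}

theorem Sep.symm {x y : V} {W : Finset V} (h : Sep G x y W) : Sep G y x W := by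
  obtain ⟨C, D, h1, h2, h3⟩ := h
  exact ⟨C, D, h1, by rw [h2, erase_right_comm], h3⟩

theorem Sep.swap {x y : V} {W : Finset V} (h : Sep G x y W) :
    ∃ C D : Finset V, Disjoint C D ∧ C ∪ D = (univ.erase x).erase y ∧
      (∀ a ∈ C, ∀ b ∈ D, s(a, b) ∉ G) ∧ (W ∩ C).Nonempty ∧ (W ∩ D).Nonempty := h

theorem Sep.mono {x y : V} {W W' : Finset V} (h : Sep G x y W) (hW : W ⊆ W') : Sep G x y W' := by
  obtain ⟨C, D, h1, h2, h3, h4, h5⟩ := h
  exact ⟨C, D, h1, h2, h3, h4.mono (inter_subset_inter_right hW), h5.mono (inter_subset_inter_right hW)⟩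

/-- separation by a pair gives a disconnected set -/
theorem Sep.disc {x y : V} {W : Finset V} (h : Sep G x y W) :
    Disc ((univ.erase x).erase y) G := by
  obtain ⟨C, D, h1, h2, h3, h4, h5⟩ := h
  exact ⟨C, D, h4.mono inter_subset_right, h5.mono inter_subset_right, h1, h2, h3⟩

/-- A set whose outside neighbours are all equal to `z`, and which misses some vertex `≠ z`, does not
exist in a 2-connected graph. -/
theorem closed_false (hcut : ∀ z, ¬ Disc (univ.erase z) G) {z w : V} {S : Finset V}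
    (hne : S.Nonempty) (hz : z ∉ S) (hw : w ∉ S) (hwz : w ≠ z)
    (hN : ∀ a ∈ S, ∀ b, b ∉ S → b ≠ z → s(a, b) ∉ G) : False := by
  refine hcut z ⟨S, (univ.erase z) \ S, hne, ⟨w, by simp [hw, hwz]⟩, disjoint_sdiff, ?_, ?_⟩
  · ext a
    simp only [mem_union, mem_sdiff, mem_erase, mem_univ, and_true]
    constructor
    · rintro (h | h)
      · rintro rfl
        exact hz h
      · exact h.1
    · intro h
      by_cases ha : a ∈ S
      · exact Or.inl ha
      · exact Or.inr ⟨h, ha⟩
  · intro a ha b hb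
    simp only [mem_sdiff, mem_erase, mem_univ, and_true] at hb
    exact hN a ha b hb.2 hb.1

section split

variable {x y : V} {C D : Finset V}

/-- A split of `V - x - y` without edges between the parts. -/
structure Split (G : Finset (Sym2 V)) (x y : V) (C D : Finset V) : Prop where
  ne : x ≠ y
  dis : Disjoint C D
  un : C ∪ D = (univ.erase x).erase y
  no : ∀ a ∈ C, ∀ b ∈ D, s(a, b) ∉ G
  hC : C.Nonempty
  hD : D.Nonempty

theorem Split.swap (h : Split G x y C D) : Split G x y D C :=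
  ⟨h.ne, h.dis.symm, by rw [union_comm]; exact h.un,
    fun a ha b hb => by rw [Sym2.eq_swap]; exact h.no b hb a ha, h.hD, h.hC⟩

theorem Split.flip (h : Split G x y C D) : Split G y x C D :=
  ⟨h.ne.symm, h.dis, by rw [h.un, erase_right_comm], h.no, h.hC, h.hD⟩

theorem Split.xC (h : Split G x y C D) : x ∉ C := fun hx => by
  have := h.un ▸ mem_union_left D hx
  simp at this

theorem Split.yC (h : Split G x y C D) : y ∉ C := h.flip.xC

theorem Split.xD (h : Split G x y C D) : x ∉ D := h.swap.xC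

theorem Split.yD (h : Split G x y C D) : y ∉ D := h.swap.yC

theorem Split.cover (h : Split G x y C D) (a : V) : a = x ∨ a = y ∨ a ∈ C ∨ a ∈ D := by
  by_cases h1 : a = x
  · exact Or.inl h1
  by_cases h2 : a = y
  · exact Or.inr (Or.inl h2)
  have : a ∈ C ∪ D := by
    rw [h.un]
    simp [h1, h2]
  rcases mem_union.1 this with h3 | h3
  · exact Or.inr (Or.inr (Or.inl h3))
  · exact Or.inr (Or.inr (Or.inr h3))

/-- neighbours of `C` are in `C`, `x`, `y` -/
theorem Split.nb (h : Split G x y C D) {a b : V} (ha : a ∈ C) (hb : s(a, b) ∈ G) :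
    b = x ∨ b = y ∨ b ∈ C := by
  rcases h.cover b with h1 | h1 | h1 | h1
  · exact Or.inl h1
  · exact Or.inr (Or.inl h1)
  · exact Or.inr (Or.inr h1)
  · exact absurd hb (h.no a ha b h1)

/-- If a second split `P, Q` of `V - u - v` has `u, v` outside `C` and `x`, `y` outside `Q` except
that one of them may be `u` or `v`, then `C` does not meet `Q`. -/
theorem Split.missQ (hcut : ∀ z, ¬ Disc (univ.erase z) G) (h : Split G x y C D) {u v : V}
    {P Q : Finset V} (k : Split G u v P Q) (hu : u ∉ C) (hv : v ∉ C)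
    (hyQ : y ∉ Q) (hy : y ∈ P) : C ∩ Q = ∅ := by
  by_contra hne
  rw [← Ne, ← nonempty_iff_ne_empty] at hne
  have hyx := h.ne.symm
  refine closed_false hcut (z := x) (w := y) hne ?_ ?_ hyx ?_
  · simp [h.xC]
  · simp [h.yC]
  · intro a ha b hb hbx hab
    rw [mem_inter] at ha hb
    rcases h.nb ha.1 hab with h1 | h1 | h1
    · exact hbx h1
    · subst h1
      exact k.no b hy a ha.2 (by rw [Sym2.eq_swap]; exact hab)
    · have hbQ : b ∉ Q := fun hq => hb ⟨h1, hq⟩
      rcases k.cover b with h2 | h2 | h2 | h2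
      · exact hu (h2 ▸ h1)
      · exact hv (h2 ▸ h1)
      · exact k.no b h2 a ha.2 (by rw [Sym2.eq_swap]; exact hab)
      · exact hbQ h2

theorem Sep.split {u v : V} {W : Finset V} (huv : u ≠ v) (h : Sep G u v W) :
    ∃ P Q : Finset V, Split G u v P Q ∧ (W ∩ P).Nonempty ∧ (W ∩ Q).Nonempty := by
  obtain ⟨P, Q, h1, h2, h3, h4, h5⟩ := h
  exact ⟨P, Q, ⟨huv, h1, h2, h3, h4.mono inter_subset_right, h5.mono inter_subset_right⟩, h4, h5⟩

/-- Crossing of 2-cuts is symmetric. -/
theorem cross_symm (hcut : ∀ z, ¬ Disc (univ.erase z) G) (h : Split G x y C D) {u v : V}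
    (hux : u ≠ x) (huy : u ≠ y) (hvx : v ≠ x) (hvy : v ≠ y) {P Q : Finset V}
    (k : Split G u v P Q) (hx : x ∈ P) (hy : y ∈ Q) : Sep G x y {u, v} := by
  have key : ∀ C D : Finset V, Split G x y C D → u ∈ C ∨ v ∈ C := by
    intro C D h
    by_contra hne
    push Not at hne
    have h1 : C ∩ P = ∅ := h.missQ hcut k.swap hne.1 hne.2
      (fun hyP => disjoint_left.1 k.dis hyP hy) hy
    have h2 : C ∩ Q = ∅ := h.flip.missQ hcut k hne.1 hne.2
      (fun hxQ => disjoint_left.1 k.dis hx hxQ) hx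
    obtain ⟨a, ha⟩ := h.hC
    rcases k.cover a with h3 | h3 | h3 | h3
    · exact hne.1 (h3 ▸ ha)
    · exact hne.2 (h3 ▸ ha)
    · exact notMem_empty a (h1 ▸ mem_inter.2 ⟨ha, h3⟩)
    · exact notMem_empty a (h2 ▸ mem_inter.2 ⟨ha, h3⟩)
  refine ⟨C, D, h.dis, h.un, h.no, ?_, ?_⟩
  · rcases key C D h with h1 | h1
    · exact ⟨u, by simp [h1]⟩
    · exact ⟨v, by simp [h1]⟩
  · rcases key D C h.swap with h1 | h1
    · exact ⟨u, by simp [h1]⟩
    · exact ⟨v, by simp [h1]⟩

/-- An uncrossed 2-cut is not separated by a disjoint pair. -/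
theorem Unc.not_sep (hcut : ∀ z, ¬ Disc (univ.erase z) G) (h : Split G x y C D) (hU : Unc G x y)
    {u v : V} (huv : u ≠ v) (hux : u ≠ x) (huy : u ≠ y) (hvx : v ≠ x) (hvy : v ≠ y)
    {P Q : Finset V} (k : Split G u v P Q) (hx : x ∈ P) : y ∈ P := by
  by_contra hyP
  have hyQ : y ∈ Q := by
    rcases k.cover y with h1 | h1 | h1 | h1
    · exact absurd h1.symm huy
    · exact absurd h1.symm hvy
    · exact absurd h1 hyP
    · exact h1
  exact hU u v hux huy hvx hvy ⟨P, Q, k.hC, k.hD, k.dis, k.un, k.no⟩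
    (cross_symm hcut h hux huy hvx hvy k hx hyQ)

/-- (h3) no subset of an uncrossed 2-cut is in `X2`. -/
theorem not_X2_pair (hcut : ∀ z, ¬ Disc (univ.erase z) G) (h : Split G x y C D)
    (hU : Unc G x y) {W : Finset V} (hW : W ⊆ {x, y}) : ¬ X2 G W := by
  rintro ⟨u, v, huv, hu, hv, hs⟩
  obtain ⟨P, Q, k, ⟨a, ha⟩, ⟨b, hb⟩⟩ := hs.split huv
  rw [mem_inter] at ha hb
  have hab : a ≠ b := fun hab => disjoint_left.1 k.dis ha.2 (hab ▸ hb.2)
  have hax := hW ha.1
  have hbx := hW hb.1
  simp only [mem_insert, mem_singleton] at hax hbx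
  have hxW : x ∈ W := by
    rcases hax with rfl | rfl
    · exact ha.1
    · rcases hbx with rfl | rfl
      · exact hb.1
      · exact absurd rfl hab
  have hyW : y ∈ W := by
    rcases hax with rfl | rfl
    · rcases hbx with rfl | rfl
      · exact absurd rfl hab
      · exact hb.1
    · exact ha.1
  have hux : u ≠ x := fun he => hu (he ▸ hxW)
  have huy : u ≠ y := fun he => hu (he ▸ hyW)
  have hvx : v ≠ x := fun he => hv (he ▸ hxW)
  have hvy : v ≠ y := fun he => hv (he ▸ hyW)
  rcases hax with rfl | rfl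
  · rcases hbx with rfl | rfl
    · exact hab rfl
    · exact disjoint_left.1 k.dis (hU.not_sep hcut h huv hux huy hvx hvy k ha.2) hb.2
  · rcases hbx with rfl | rfl
    · exact disjoint_left.1 k.dis ha.2 (hU.not_sep hcut h huv hux huy hvx hvy k.swap hb.2)
    · exact hab rfl

/-- (h2) a set which misses the cut and meets both parts is in `X2`. -/
theorem X2_of_split (h : Split G x y C D) {W : Finset V} (hx : x ∉ W) (hy : y ∉ W)
    (hC : (W ∩ C).Nonempty) (hD : (W ∩ D).Nonempty) : X2 G W :=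
  ⟨x, y, h.ne, hx, hy, C, D, h.dis, h.un, h.no, hC, hD⟩

/-- The cut of a set `W ⊆ C ∪ {x, y}` in `X2` has no vertex in `D`. -/
theorem cut_not_mem (hc : ¬ Disc univ G) (hcut : ∀ z, ¬ Disc (univ.erase z) G)
    (h : Split G x y C D) (hU : Unc G x y) {W : Finset V} (hW : W ⊆ C ∪ {x, y}) {u v : V}
    {P Q : Finset V} (k : Split G u v P Q) (hWP : (W ∩ P).Nonempty)
    (hWQ : (W ∩ Q).Nonempty) : u ∉ D := by
  intro hu
  have hux : u ≠ x := fun he => h.xD (he ▸ hu)
  have huy : u ≠ y := fun he => h.yD (he ▸ hu)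
  have huC : u ∉ C := fun he => disjoint_left.1 h.dis he hu
  by_cases hvx : v = x
  · -- the cut is `{u, x}`; `y` is on one side
    subst hvx
    have hvC := h.xC
    rcases k.cover y with h1 | h1 | h1 | h1
    · exact huy h1.symm
    · exact h.ne h1.symm
    · have h2 : C ∩ Q = ∅ := h.missQ hcut k huC hvC
        (fun hyQ => disjoint_left.1 k.dis h1 hyQ) h1
      obtain ⟨b, hb⟩ := hWQ
      rw [mem_inter] at hb
      have h3 := hW hb.1
      simp only [mem_union, mem_insert, mem_singleton] at h3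
      rcases h3 with h3 | rfl | rfl
      · exact notMem_empty b (h2 ▸ mem_inter.2 ⟨h3, hb.2⟩)
      · exact k.yD hb.2
      · exact disjoint_left.1 k.dis h1 hb.2
    · have h2 : C ∩ P = ∅ := h.missQ hcut k.swap huC hvC
        (fun hyQ => disjoint_left.1 k.dis hyQ h1) h1
      obtain ⟨b, hb⟩ := hWP
      rw [mem_inter] at hb
      have h3 := hW hb.1
      simp only [mem_union, mem_insert, mem_singleton] at h3
      rcases h3 with h3 | rfl | rfl
      · exact notMem_empty b (h2 ▸ mem_inter.2 ⟨h3, hb.2⟩)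
      · exact k.yC hb.2
      · exact disjoint_left.1 k.dis hb.2 h1
  by_cases hvy : v = y
  · subst hvy
    have hvC := h.yC
    rcases k.cover x with h1 | h1 | h1 | h1
    · exact hux h1.symm
    · exact h.ne h1
    · have h2 : C ∩ Q = ∅ := h.flip.missQ hcut k huC hvC
        (fun hyQ => disjoint_left.1 k.dis h1 hyQ) h1
      obtain ⟨b, hb⟩ := hWQ
      rw [mem_inter] at hb
      have h3 := hW hb.1
      simp only [mem_union, mem_insert, mem_singleton] at h3
      rcases h3 with h3 | rfl | rfl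
      · exact notMem_empty b (h2 ▸ mem_inter.2 ⟨h3, hb.2⟩)
      · exact disjoint_left.1 k.dis h1 hb.2
      · exact k.yD hb.2
    · have h2 : C ∩ P = ∅ := h.flip.missQ hcut k.swap huC hvC
        (fun hyQ => disjoint_left.1 k.dis hyQ h1) h1
      obtain ⟨b, hb⟩ := hWP
      rw [mem_inter] at hb
      have h3 := hW hb.1
      simp only [mem_union, mem_insert, mem_singleton] at h3
      rcases h3 with h3 | rfl | rfl
      · exact notMem_empty b (h2 ▸ mem_inter.2 ⟨h3, hb.2⟩)
      · exact disjoint_left.1 k.dis hb.2 h1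
      · exact k.yC hb.2
  -- now `{u, v}` is disjoint from `{x, y}`
  have hdisc : Disc ((univ.erase u).erase v) G := ⟨P, Q, k.hC, k.hD, k.dis, k.un, k.no⟩
  by_cases hvC : v ∈ C
  · refine hU u v hux huy hvx hvy hdisc ⟨C, D, h.dis, h.un, h.no, ⟨v, ?_⟩, ⟨u, ?_⟩⟩
    · simp [hvC]
    · simp [hu]
  -- both in `D`
  have main : ∀ P Q : Finset V, Split G u v P Q → (W ∩ Q).Nonempty → x ∈ P → False := by
    intro P Q k hWQ hx
    have hy : y ∈ P := hU.not_sep hcut h k.ne hux huy hvx hvy k hx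
    have h2 : C ∩ Q = ∅ := h.missQ hcut k huC hvC (fun hyQ => disjoint_left.1 k.dis hy hyQ) hy
    obtain ⟨b, hb⟩ := hWQ
    rw [mem_inter] at hb
    have h3 := hW hb.1
    simp only [mem_union, mem_insert, mem_singleton] at h3
    rcases h3 with h3 | rfl | rfl
    · exact notMem_empty b (h2 ▸ mem_inter.2 ⟨h3, hb.2⟩)
    · exact disjoint_left.1 k.dis hx hb.2
    · exact disjoint_left.1 k.dis hy hb.2
  rcases k.cover x with h1 | h1 | h1 | h1
  · exact hux h1.symm
  · exact hvx h1.symm
  · exact main P Q k hWQ h1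
  · exact main Q P k.swap hWP h1

/-- (h4) `X2` sets in the closure of one part stay in `X2` if vertices of the other part are
added. -/
theorem X2_union (hc : ¬ Disc univ G) (hcut : ∀ z, ¬ Disc (univ.erase z) G)
    (h : Split G x y C D) (hU : Unc G x y) {W B : Finset V} (hW : W ⊆ C ∪ {x, y})
    (hX : X2 G W) (hB : B ⊆ D) : X2 G (W ∪ B) := by
  obtain ⟨u, v, huv, hu, hv, hs⟩ := hX
  obtain ⟨P, Q, k, hP, hQ⟩ := hs.split huv
  have huD : u ∉ D := cut_not_mem hc hcut h hU hW k hP hQ
  have hvD : v ∉ D := cut_not_mem hc hcut h hU hW k.flip hP hQ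
  refine ⟨u, v, huv, ?_, ?_, hs.mono subset_union_left⟩
  · rw [mem_union]
    rintro (h1 | h1)
    · exact hu h1
    · exact huD (hB h1)
  · rw [mem_union]
    rintro (h1 | h1)
    · exact hv h1
    · exact hvD (hB h1)

end split

end H47D
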