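import Pool.Agent.Lib.LD.Def

/-!
# H47D, file Side: (S6) every separation other than the uncrossed one lies in the closure of one side
-/

set_option autoImplicit false

namespace H47D

open Finset H98M LD

variable {V : Type*} [DecidableEq V]

/-- A proper nonempty set whose outside neighbours are all equal to `z` does not exist in a
2-connected graph. -/
theorem closedY {E : Finset (Sym2 V)} {Y : Finset V} (hT : TCY E Y) {z w : V} {S : Finset V}
    (hS : S ⊆ Y) (hne : S.Nonempty) (hzY : z ∈ Y) (hz : z ∉ S) (hwY : w ∈ Y) (hw : w ∉ S)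
    (hwz : w ≠ z) (hN : ∀ a ∈ S, ∀ b ∈ Y, b ∉ S → b ≠ z → s(a, b) ∉ E) : False := by
  refine hT.conn' z hzY ⟨S, (Y.erase z) \ S, hne, ⟨w, by simp [hw, hwz, hwY]⟩, disjoint_sdiff,
    ?_, ?_⟩
  · ext a
    simp only [mem_union, mem_sdiff, mem_erase]
    constructor
    · rintro (h | h)
      · exact ⟨fun he => hz (he ▸ h), hS h⟩
      · exact h.1
    · intro h
      by_cases ha : a ∈ S
      · exact Or.inl ha
      · exact Or.inr ⟨h, ha⟩
  · intro a ha b hb
    simp only [mem_sdiff, mem_erase] at hb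
    exact hN a ha b hb.1.2 hb.2 hb.1.1

variable {E : Finset (Sym2 V)} {Y : Finset V} {x y : V} {P Q : Finset V}

theorem memY (h : Sep E Y x y P Q) {a : V} : a ∈ Y ↔ a = x ∨ a = y ∨ a ∈ P ∨ a ∈ Q := by
  rw [← h.eq]
  simp only [mem_insert, mem_union]

theorem xY (h : Sep E Y x y P Q) : x ∈ Y := (memY h).2 (Or.inl rfl)
theorem yY (h : Sep E Y x y P Q) : y ∈ Y := (memY h).2 (Or.inr (Or.inl rfl))
theorem PY (h : Sep E Y x y P Q) : P ⊆ Y := fun _ ha => (memY h).2 (Or.inr (Or.inr (Or.inl ha)))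
theorem QY (h : Sep E Y x y P Q) : Q ⊆ Y := fun _ ha => (memY h).2 (Or.inr (Or.inr (Or.inr ha)))

/-- neighbours of a vertex of `P` -/
theorem nbP (h : Sep E Y x y P Q) {a b : V} (ha : a ∈ P) (hb : b ∈ Y) (hab : s(a, b) ∈ E) :
    b = x ∨ b = y ∨ b ∈ P := by
  rcases (memY h).1 hb with h1 | h1 | h1 | h1
  · exact Or.inl h1
  · exact Or.inr (Or.inl h1)
  · exact Or.inr (Or.inr h1)
  · exact absurd hab (h.noE a ha b h1)

/-- For an uncrossed cut the two vertices are on one side (or in the other cut). -/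
theorem Unc.same (hU : Unc E Y x y) (hx : y ∈ Y) {u v : V} {P' Q' : Finset V}
    (k : Sep E Y u v P' Q') (hxP : x ∈ P') (hyu : y ≠ u) (hyv : y ≠ v) : y ∈ P' := by
  rcases (memY k).1 hx with h1 | h1 | h1 | h1
  · exact absurd h1 hyu
  · exact absurd h1 hyv
  · exact h1
  · exact absurd ⟨hxP, h1⟩ (hU u v P' Q' k)

theorem Unc.flip (hU : Unc E Y x y) : Unc E Y y x := by
  intro u v P' Q' k ⟨h1, h2⟩
  exact hU u v Q' P' k.symm ⟨h2, h1⟩

/-- no cut with one vertex in `P` and one vertex in `Q` -/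
theorem no_mixed (hT : TCY E Y) (hU : Unc E Y x y) (h : Sep E Y x y P Q) {u v : V}
    {P' Q' : Finset V} (k : Sep E Y u v P' Q') (hu : u ∈ P) (hv : v ∈ Q) : False := by
  have hxu : x ≠ u := fun he => h.xP (he ▸ hu)
  have hyu : y ≠ u := fun he => h.yP (he ▸ hu)
  have hxv : x ≠ v := fun he => h.xQ (he ▸ hv)
  have hyv : y ≠ v := fun he => h.yQ (he ▸ hv)
  have main : ∀ P' Q' : Finset V, Sep E Y u v P' Q' → x ∈ P' → False := by
    intro P' Q' k hx
    have hy : y ∈ P' := Unc.same hU (yY h) k hx hyu hyv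
    have hxQ' : x ∉ Q' := fun he => disjoint_left.1 k.dis hx he
    have hyQ' : y ∉ Q' := fun he => disjoint_left.1 k.dis hy he
    obtain ⟨c, hc⟩ := k.Q0
    rcases (memY h).1 (QY k hc) with h1 | h1 | h1 | h1
    · exact hxQ' (h1 ▸ hc)
    · exact hyQ' (h1 ▸ hc)
    · refine closedY hT (z := u) (w := x) (S := P ∩ Q') (inter_subset_left.trans (PY h))
        ⟨c, mem_inter.2 ⟨h1, hc⟩⟩ (xY k) (fun he => k.xQ (mem_inter.1 he).2) (xY h)
        (fun he => hxQ' (mem_inter.1 he).2) hxu ?_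
      intro a ha b hb hbS hbz hab
      rw [mem_inter] at ha hbS
      rcases nbP h ha.1 hb hab with rfl | rfl | h2
      · exact k.noE b hx a ha.2 (by rw [Sym2.eq_swap]; exact hab)
      · exact k.noE b hy a ha.2 (by rw [Sym2.eq_swap]; exact hab)
      · rcases nbP k.symm ha.2 hb hab with h3 | h3 | h3
        · exact hbz h3
        · exact disjoint_left.1 h.dis h2 (h3 ▸ hv)
        · exact hbS ⟨h2, h3⟩
    · refine closedY hT (z := v) (w := x) (S := Q ∩ Q') (inter_subset_left.trans (QY h))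
        ⟨c, mem_inter.2 ⟨h1, hc⟩⟩ (yY k) (fun he => k.yQ (mem_inter.1 he).2) (xY h)
        (fun he => hxQ' (mem_inter.1 he).2) hxv ?_
      intro a ha b hb hbS hbz hab
      rw [mem_inter] at ha hbS
      rcases nbP h.symm ha.1 hb hab with rfl | rfl | h2
      · exact k.noE b hx a ha.2 (by rw [Sym2.eq_swap]; exact hab)
      · exact k.noE b hy a ha.2 (by rw [Sym2.eq_swap]; exact hab)
      · rcases nbP k.symm ha.2 hb hab with h3 | h3 | h3
        · exact disjoint_left.1 h.dis hu (h3 ▸ h2)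
        · exact hbz h3
        · exact hbS ⟨h2, h3⟩
  rcases (memY k).1 (xY h) with h1 | h1 | h1 | h1
  · exact hxu h1
  · exact hxv h1
  · exact main P' Q' k h1
  · exact main Q' P' k.symm h1

/-- the other cut lies in `P ∪ {x, y}`: then `Q` and the free ones of `x`, `y` are on one side -/
theorem side_aux (hT : TCY E Y) (hU : Unc E Y x y) (h : Sep E Y x y P Q) {u v : V}
    {P' Q' : Finset V} (k : Sep E Y u v P' Q') (hu : u ∉ Q) (hv : v ∉ Q)
    (hxu : x ≠ u) (hxv : x ≠ v) (hx : x ∈ P') :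
    Q ⊆ P' ∧ (y ≠ u → y ≠ v → y ∈ P') := by
  have hy : y ≠ u → y ≠ v → y ∈ P' := fun h1 h2 => Unc.same hU (yY h) k hx h1 h2
  refine ⟨?_, hy⟩
  have hxQ' : x ∉ Q' := fun he => disjoint_left.1 k.dis hx he
  intro c hc
  rcases (memY k).1 (QY h hc) with h1 | h1 | h1 | h1
  · exact absurd (h1 ▸ hc) hu
  · exact absurd (h1 ▸ hc) hv
  · exact h1
  exfalso
  refine closedY hT (z := y) (w := x) (S := Q ∩ Q') (inter_subset_left.trans (QY h))
    ⟨c, mem_inter.2 ⟨hc, h1⟩⟩ (yY h) (fun he => h.yQ (mem_inter.1 he).1) (xY h)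
    (fun he => hxQ' (mem_inter.1 he).2) h.ne ?_
  intro a ha b hb hbS hbz hab
  rw [mem_inter] at ha hbS
  rcases nbP h.symm ha.1 hb hab with rfl | h2 | h2
  · exact k.noE b hx a ha.2 (by rw [Sym2.eq_swap]; exact hab)
  · exact hbz h2
  · rcases nbP k.symm ha.2 hb hab with h3 | h3 | h3
    · exact hu (h3 ▸ h2)
    · exact hv (h3 ▸ h2)
    · exact hbS ⟨h2, h3⟩

theorem side_one (hT : TCY E Y) (hU : Unc E Y x y) (h : Sep E Y x y P Q) {u v : V}
    {P' Q' : Finset V} (k : Sep E Y u v P' Q') (hu : u ∉ Q) (hv : v ∉ Q)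
    (hne : ¬ ((u = x ∧ v = y) ∨ (u = y ∧ v = x))) :
    (Q ⊆ P' ∧ (x ≠ u → x ≠ v → x ∈ P') ∧ (y ≠ u → y ≠ v → y ∈ P')) ∨
      (Q ⊆ Q' ∧ (x ≠ u → x ≠ v → x ∈ Q') ∧ (y ≠ u → y ≠ v → y ∈ Q')) := by
  by_cases hx : x ≠ u ∧ x ≠ v
  · rcases (memY k).1 (xY h) with h1 | h1 | h1 | h1
    · exact absurd h1 hx.1
    · exact absurd h1 hx.2
    · obtain ⟨h2, h3⟩ := side_aux hT hU h k hu hv hx.1 hx.2 h1
      exact Or.inl ⟨h2, fun _ _ => h1, h3⟩
    · obtain ⟨h2, h3⟩ := side_aux hT hU h k.symm hu hv hx.1 hx.2 h1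
      exact Or.inr ⟨h2, fun _ _ => h1, h3⟩
  · have hx' : x = u ∨ x = v := by
      by_contra hne2
      push Not at hne2
      exact hx hne2
    have hy : y ≠ u ∧ y ≠ v := by
      constructor
      · rintro rfl
        rcases hx' with h1 | h1
        · exact h.ne h1
        · exact hne (Or.inr ⟨rfl, h1.symm⟩)
      · rintro rfl
        rcases hx' with h1 | h1
        · exact hne (Or.inl ⟨h1.symm, rfl⟩)
        · exact h.ne h1
    have hx0 : x ≠ u → x ≠ v → False := fun h1 h2 => hx ⟨h1, h2⟩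
    rcases (memY k).1 (yY h) with h1 | h1 | h1 | h1
    · exact absurd h1 hy.1
    · exact absurd h1 hy.2
    · obtain ⟨h2, _⟩ := side_aux hT (Unc.flip hU) h.flip k hu hv hy.1 hy.2 h1
      exact Or.inl ⟨h2, fun h3 h4 => (hx0 h3 h4).elim, fun _ _ => h1⟩
    · obtain ⟨h2, _⟩ := side_aux hT (Unc.flip hU) h.flip k.symm hu hv hy.1 hy.2 h1
      exact Or.inr ⟨h2, fun h3 h4 => (hx0 h3 h4).elim, fun _ _ => h1⟩

/-- (S6) -/
theorem side (hT : TCY E Y) (hU : Unc E Y x y) (h : Sep E Y x y P Q) {u v : V}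
    {P' Q' : Finset V} (k : Sep E Y u v P' Q')
    (hne : ¬ ((u = x ∧ v = y) ∨ (u = y ∧ v = x))) :
    (u ∈ insert x (insert y P) ∧ v ∈ insert x (insert y P) ∧
      ((Q ⊆ P' ∧ (x ≠ u → x ≠ v → x ∈ P') ∧ (y ≠ u → y ≠ v → y ∈ P')) ∨
      (Q ⊆ Q' ∧ (x ≠ u → x ≠ v → x ∈ Q') ∧ (y ≠ u → y ≠ v → y ∈ Q')))) ∨
    (u ∈ insert x (insert y Q) ∧ v ∈ insert x (insert y Q) ∧
      ((P ⊆ P' ∧ (x ≠ u → x ≠ v → x ∈ P') ∧ (y ≠ u → y ≠ v → y ∈ P')) ∨
      (P ⊆ Q' ∧ (x ≠ u → x ≠ v → x ∈ Q') ∧ (y ≠ u → y ≠ v → y ∈ Q')))) := by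
  have hu := (memY h).1 (xY k)
  have hv := (memY h).1 (yY k)
  by_cases huv : u ∉ Q ∧ v ∉ Q
  · left
    refine ⟨?_, ?_, side_one hT hU h k huv.1 huv.2 hne⟩
    · simp only [mem_insert]
      rcases hu with h1 | h1 | h1 | h1
      · exact Or.inl h1
      · exact Or.inr (Or.inl h1)
      · exact Or.inr (Or.inr h1)
      · exact absurd h1 huv.1
    · simp only [mem_insert]
      rcases hv with h1 | h1 | h1 | h1
      · exact Or.inl h1
      · exact Or.inr (Or.inl h1)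
      · exact Or.inr (Or.inr h1)
      · exact absurd h1 huv.2
  · have huv' : u ∉ P ∧ v ∉ P := by
      by_contra hc
      have h1 : u ∈ Q ∨ v ∈ Q := by tauto
      have h2 : u ∈ P ∨ v ∈ P := by tauto
      rcases h1 with h1 | h1 <;> rcases h2 with h2 | h2
      · exact disjoint_left.1 h.dis h2 h1
      · exact no_mixed hT hU h k.flip h2 h1
      · exact no_mixed hT hU h k h2 h1
      · exact disjoint_left.1 h.dis h2 h1
    right
    refine ⟨?_, ?_, side_one hT hU h.symm k huv'.1 huv'.2 hne⟩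
    · simp only [mem_insert]
      rcases hu with h1 | h1 | h1 | h1
      · exact Or.inl h1
      · exact Or.inr (Or.inl h1)
      · exact absurd h1 huv'.1
      · exact Or.inr (Or.inr h1)
    · simp only [mem_insert]
      rcases hv with h1 | h1 | h1 | h1
      · exact Or.inl h1
      · exact Or.inr (Or.inl h1)
      · exact absurd h1 huv'.2
      · exact Or.inr (Or.inr h1)

end H47D
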